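import Mathlib

set_option autoImplicit false

namespace Pool.Agent.Results.MP_faa006_lc.NotDefinable

/-- Terms over the signature `0, 1, ⊥, -, +, ·, ÷`, with variables indexed by `ℕ`. -/
inductive Term : Type
  | var : ℕ → Term
  | zero : Term
  | one : Term
  | bot : Term
  | neg : Term → Term
  | add : Term → Term → Term
  | mul : Term → Term → Term
  | div : Term → Term → Term

open Classical in
/-- Inverse based common division on a commutative ring: `x ÷ y = x * y⁻¹` if `y` is a unit and
`⊥` (here `none`) otherwise. -/
noncomputable def cdiv {R : Type} [CommRing R] (x y : R) : Option R :=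
  if IsUnit y then some (x * Ring.inverse y) else none

/-- The value of a term in `Enl_⊥(R_÷)`, whose universe `R ∪ {⊥}` is `Option R` with `⊥ = none`,
under the valuation `v` of the variables. Every operation returns `⊥` as soon as one argument
is `⊥`. -/
noncomputable def Term.eval {R : Type} [CommRing R] (v : ℕ → Option R) : Term → Option R
  | Term.var n => v n
  | Term.zero => some 0
  | Term.one => some 1
  | Term.bot => none
  | Term.neg t => (t.eval v).bind fun x => some (-x)
  | Term.add s t => (s.eval v).bind fun x => (t.eval v).bind fun y => some (x + y)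
  | Term.mul s t => (s.eval v).bind fun x => (t.eval v).bind fun y => some (x * y)
  | Term.div s t => (s.eval v).bind fun x => (t.eval v).bind fun y => cdiv x y

/-- A conditional equation `e₁ ∧ ⋯ ∧ eₙ → e`; an equation is a pair of terms. -/
structure CondEq : Type where
  /-- the list of premises `e₁, …, eₙ` -/
  hyps : List (Term × Term)
  /-- the conclusion `e` -/
  concl : Term × Term

/-- `Enl_⊥(R_÷) ⊨ e`: under every valuation of the variables in `R ∪ {⊥}` that satisfies all the
premises of `e`, the conclusion of `e` holds. -/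
def Holds (R : Type) [CommRing R] (e : CondEq) : Prop :=
  ∀ v : ℕ → Option R, (∀ p ∈ e.hyps, p.1.eval v = p.2.eval v) →
    e.concl.1.eval v = e.concl.2.eval v

theorem cdiv_map {R D : Type} [CommRing R] [CommRing D] (h : R →+* D)
    (hloc : ∀ r : R, IsUnit (h r) → IsUnit r) (x y : R) :
    (cdiv x y).map h = cdiv (h x) (h y) := by
  unfold cdiv
  by_cases hy : IsUnit y
  · have hy' : IsUnit (h y) := hy.map h
    rw [if_pos hy, if_pos hy', Option.map_some, map_mul]
    congr 2
    have h1 : h y * h (Ring.inverse y) = 1 := by
      rw [← map_mul, Ring.mul_inverse_cancel y hy, map_one]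
    calc h (Ring.inverse y) = (Ring.inverse (h y) * h y) * h (Ring.inverse y) := by
          rw [Ring.inverse_mul_cancel _ hy', one_mul]
      _ = Ring.inverse (h y) := by rw [mul_assoc, h1, mul_one]
  · have hy' : ¬ IsUnit (h y) := fun hh => hy (hloc y hh)
    rw [if_neg hy, if_neg hy', Option.map_none]

theorem eval_map {R D : Type} [CommRing R] [CommRing D] (h : R →+* D)
    (hloc : ∀ r : R, IsUnit (h r) → IsUnit r) (v : ℕ → Option R) (t : Term) :
    (t.eval v).map h = t.eval (fun n => (v n).map h) := by
  induction t with
  | var n => rfl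
  | zero => simp [Term.eval]
  | one => simp [Term.eval]
  | bot => simp [Term.eval]
  | neg t ih =>
    simp only [Term.eval, ← ih]
    cases t.eval v <;> simp
  | add s t ihs iht =>
    simp only [Term.eval, ← ihs, ← iht]
    cases s.eval v <;> cases t.eval v <;> simp
  | mul s t ihs iht =>
    simp only [Term.eval, ← ihs, ← iht]
    cases s.eval v <;> cases t.eval v <;> simp
  | div s t ihs iht =>
    simp only [Term.eval, ← ihs, ← iht]
    cases s.eval v <;> cases t.eval v <;> simp [cdiv_map h hloc]

/-- The fibre product `ℚ⟦X⟧ ×_ℚ ℚ⟦X⟧`. -/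
noncomputable def fib : Subring (PowerSeries ℚ × PowerSeries ℚ) :=
  RingHom.eqLocus
    ((PowerSeries.constantCoeff (R := ℚ)).comp (RingHom.fst _ _))
    ((PowerSeries.constantCoeff (R := ℚ)).comp (RingHom.snd _ _))

theorem mem_fib (p : PowerSeries ℚ × PowerSeries ℚ) :
    p ∈ fib ↔ PowerSeries.constantCoeff p.1 = PowerSeries.constantCoeff p.2 := Iff.rfl

theorem isUnit_fib (r : fib) (hr : PowerSeries.constantCoeff r.1.1 ≠ 0) : IsUnit r := by
  have h12 : PowerSeries.constantCoeff r.1.1 = PowerSeries.constantCoeff r.1.2 :=
    (mem_fib _).1 r.2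
  have hr2 : PowerSeries.constantCoeff r.1.2 ≠ 0 := h12 ▸ hr
  have hmem : ((r.1.1)⁻¹, (r.1.2)⁻¹) ∈ fib := by
    rw [mem_fib]
    simp only [PowerSeries.constantCoeff_inv, h12]
  refine IsUnit.of_mul_eq_one ⟨_, hmem⟩ ?_
  apply Subtype.ext
  apply Prod.ext
  · exact PowerSeries.mul_inv_cancel _ hr
  · exact PowerSeries.mul_inv_cancel _ hr2

/-- **No set of conditional equations defines integral domains with common division inside
commutative rings with common division.** -/
theorem result :
    ∀ T : Set CondEq,
      (∀ e ∈ T, ∀ (D : Type) [CommRing D] [IsDomain D], Holds D e) →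
      ∃ (R : Type) (_ : CommRing R), (∀ e ∈ T, Holds R e) ∧ ¬ NoZeroDivisors R := by
  intro T hT
  let p1 : fib →+* PowerSeries ℚ := (RingHom.fst _ _).comp fib.subtype
  let p2 : fib →+* PowerSeries ℚ := (RingHom.snd _ _).comp fib.subtype
  have hp1 : ∀ r : fib, IsUnit (p1 r) → IsUnit r := by
    intro r hr
    apply isUnit_fib
    exact (PowerSeries.isUnit_iff_constantCoeff.1 hr).ne_zero
  have hp2 : ∀ r : fib, IsUnit (p2 r) → IsUnit r := by
    intro r hr
    apply isUnit_fib
    rw [(mem_fib _).1 r.2]
    exact (PowerSeries.isUnit_iff_constantCoeff.1 hr).ne_zero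
  have hsep : ∀ a b : Option fib, a.map p1 = b.map p1 → a.map p2 = b.map p2 → a = b := by
    intro a b h1 h2
    cases a with
    | none => cases b with
      | none => rfl
      | some y => simp at h1
    | some x => cases b with
      | none => simp at h1
      | some y =>
        simp only [Option.map_some, Option.some.injEq] at h1 h2 ⊢
        exact Subtype.ext (Prod.ext h1 h2)
  refine ⟨fib, inferInstance, ?_, ?_⟩
  · intro e he v hv
    have key : ∀ p : fib →+* PowerSeries ℚ, (∀ r : fib, IsUnit (p r) → IsUnit r) →
        (e.concl.1.eval v).map p = (e.concl.2.eval v).map p := by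
      intro p hp
      rw [eval_map p hp, eval_map p hp]
      apply hT e he (PowerSeries ℚ)
      intro q hq
      rw [← eval_map p hp, ← eval_map p hp, hv q hq]
    exact hsep _ _ (key p1 hp1) (key p2 hp2)
  · intro hnz
    have ha : ((PowerSeries.X : PowerSeries ℚ), (0 : PowerSeries ℚ)) ∈ fib := by
      rw [mem_fib]; simp
    have hb : ((0 : PowerSeries ℚ), (PowerSeries.X : PowerSeries ℚ)) ∈ fib := by
      rw [mem_fib]; simp
    have hab : (⟨_, ha⟩ : fib) * ⟨_, hb⟩ = 0 := by
      apply Subtype.ext
      apply Prod.ext <;> simp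
    rcases hnz.eq_zero_or_eq_zero_of_mul_eq_zero hab with h | h
    · have := congrArg (fun r : fib => r.1.1) h
      simp at this
    · have := congrArg (fun r : fib => r.1.2) h
      simp at this

end Pool.Agent.Results.MP_faa006_lc.NotDefinable
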