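import Mathlib
import Pool.Agent.Results.MP_faa006_lc.NotDefinable

set_option autoImplicit false

namespace Pool.Agent.Results.MP_faa006_lc.Hull

open Pool.Agent.Results.MP_faa006_lc.NotDefinable Filter

open Classical in
theorem exists_zero_set {R : Type} [CommRing R]
    (h : ∀ e : CondEq, (∀ (D : Type) [CommRing D] [IsDomain D], Holds D e) → Holds R e)
    {r : R} (hr : r ≠ 0) (s : Finset R) (h0 : (0 : R) ∈ s) (h1 : (1 : R) ∈ s) (hrs : r ∈ s) :
    ∃ Z : Set R, 0 ∈ Z ∧ r ∉ Z ∧ (∀ x ∈ s, ∀ y ∈ s, x + y ∈ s → x ∈ Z → y ∈ Z → x + y ∈ Z) ∧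
      (∀ x ∈ s, ∀ y ∈ s, x * y ∈ s → (x * y ∈ Z ↔ x ∈ Z ∨ y ∈ Z)) ∧
      ∀ x ∈ s, x + 1 ∈ s → x ∈ Z → IsUnit (x + 1) := by
  let V : R → Term := fun x => Term.var (s.toList.idxOf x)
  let e : CondEq :=
    ⟨(s.toList.map fun x => (Term.mul Term.zero (V x), Term.zero)) ++
      (s.toList.map fun x => if IsUnit x then (Term.zero, Term.zero)
        else (Term.div Term.one (V x), Term.bot)) ++
      ((s ×ˢ s).toList.map fun p => if p.1 + p.2 ∈ s then (Term.add (V p.1) (V p.2), V (p.1 + p.2))
        else (Term.zero, Term.zero)) ++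
      ((s ×ˢ s).toList.map fun p => if p.1 * p.2 ∈ s then (Term.mul (V p.1) (V p.2), V (p.1 * p.2))
        else (Term.zero, Term.zero)) ++ [(V 1, Term.one), (V 0, Term.zero)],
      (V r, Term.zero)⟩
  have hV : ∀ x ∈ s, (V x).eval (fun n => s.toList[n]?) = some x := fun x hx =>
    List.getElem?_idxOf (Finset.mem_toList.2 hx)
  have hfail : ¬ Holds R e := by
    intro he
    have := he (fun n => s.toList[n]?) (by
      intro p hp
      simp only [e, List.mem_append, List.mem_map, Finset.mem_toList, Finset.mem_product,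
        List.mem_cons, List.not_mem_nil, or_false] at hp
      rcases hp with (((⟨x, hx, rfl⟩ | ⟨x, hx, rfl⟩) | ⟨q, hq, rfl⟩) | ⟨q, hq, rfl⟩) | rfl | rfl
      · simp only [Term.eval, hV x hx]; simp
      · split_ifs with hu
        · rfl
        · simp only [Term.eval, hV x hx]; simp [cdiv, hu]
      · split_ifs with hu
        · simp only [Term.eval, hV _ hq.1, hV _ hq.2, hV _ hu]; simp
        · rfl
      · split_ifs with hu
        · simp only [Term.eval, hV _ hq.1, hV _ hq.2, hV _ hu]; simp
        · rfl
      · exact hV 1 h1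
      · exact hV 0 h0)
    rw [hV r hrs] at this
    exact hr (Option.some.inj this)
  have hD : ¬ ∀ (D : Type) [CommRing D] [IsDomain D], Holds D e := fun hh => hfail (h e hh)
  push Not at hD
  obtain ⟨D, _, _, hD⟩ := hD
  unfold Holds at hD
  push Not at hD
  obtain ⟨w, hw, hne⟩ := hD
  simp only [e, List.mem_append, List.mem_map, Finset.mem_toList, Finset.mem_product,
    List.mem_cons, List.not_mem_nil, or_false] at hw
  let f : R → D := fun x => ((V x).eval w).getD 0
  have hf : ∀ x ∈ s, (V x).eval w = some (f x) := by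
    intro x hx
    have := hw _ (Or.inl (Or.inl (Or.inl (Or.inl ⟨x, hx, rfl⟩))))
    simp only [Term.eval] at this
    simp only [f]
    cases hh : (V x).eval w with
    | none => rw [hh] at this; simp at this
    | some y => rfl
  have hadd : ∀ x ∈ s, ∀ y ∈ s, x + y ∈ s → f (x + y) = f x + f y := by
    intro x hx y hy hxy
    have := hw _ (Or.inl (Or.inl (Or.inr ⟨(x, y), ⟨hx, hy⟩, rfl⟩)))
    simp only [if_pos hxy, Term.eval, hf x hx, hf y hy, hf _ hxy] at this
    simpa using this.symm
  have hmul : ∀ x ∈ s, ∀ y ∈ s, x * y ∈ s → f (x * y) = f x * f y := by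
    intro x hx y hy hxy
    have := hw _ (Or.inl (Or.inr ⟨(x, y), ⟨hx, hy⟩, rfl⟩))
    simp only [if_pos hxy, Term.eval, hf x hx, hf y hy, hf _ hxy] at this
    simpa using this.symm
  have hunit : ∀ x ∈ s, IsUnit (f x) → IsUnit x := by
    intro x hx hu
    by_contra hn
    have := hw _ (Or.inl (Or.inl (Or.inl (Or.inr ⟨x, hx, rfl⟩))))
    simp only [if_neg hn, Term.eval, hf x hx] at this
    simp [cdiv, hu] at this
  have hf1 : f 1 = 1 := by
    have := hw _ (Or.inr (Or.inl rfl))
    simp only [Term.eval, hf 1 h1] at this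
    exact Option.some.inj this
  have hf0 : f 0 = 0 := by
    have := hw _ (Or.inr (Or.inr rfl))
    simp only [Term.eval, hf 0 h0] at this
    exact Option.some.inj this
  refine ⟨{x | f x = 0}, hf0, fun hz => hne ?_, fun x hx y hy hxy a b => ?_,
    fun x hx y hy hxy => ?_, fun x hx hx1 a => hunit _ hx1 ?_⟩
  · change (V r).eval w = some 0
    rw [hf r hrs, show f r = 0 from hz]
  · change f (x + y) = 0
    rw [hadd x hx y hy hxy, show f x = 0 from a, show f y = 0 from b, add_zero]
  · change f (x * y) = 0 ↔ f x = 0 ∨ f y = 0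
    rw [hmul x hx y hy hxy, mul_eq_zero]
  · rw [hadd x hx 1 h1 hx1, show f x = 0 from a, hf1, zero_add]
    exact isUnit_one

/-- A non-trivial commutative ring with common division satisfies every conditional equation valid
in all integral domains with common division if and only if every non-zero element lies outside
some prime ideal contained in the Jacobson radical. -/
theorem result (R : Type) [CommRing R] [Nontrivial R] :
    (∀ e : CondEq, (∀ (D : Type) [CommRing D] [IsDomain D], Holds D e) → Holds R e) ↔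
      ∀ r : R, r ≠ 0 → ∃ p : Ideal R, p.IsPrime ∧ p ≤ Ring.jacobson R ∧ r ∉ p := by
  classical
  rw [← Ideal.jacobson_bot]
  constructor
  · intro h r hr
    choose! Z hZ using exists_zero_set h hr
    let U : Ultrafilter (Finset R) := Ultrafilter.of atTop
    have hU : ∀ x : R, ∀ᶠ s in (U : Filter (Finset R)), x ∈ s := fun x =>
      (Ultrafilter.of_le atTop) ((eventually_ge_atTop {x}).mono fun s hs =>
        hs (Finset.mem_singleton_self x))
    have hZ' := ((hU 0).and ((hU 1).and (hU r))).mono fun s hs => hZ s hs.1 hs.2.1 hs.2.2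
    let p : Ideal R :=
      { carrier := {x | ∀ᶠ s in (U : Filter (Finset R)), x ∈ Z s}
        zero_mem' := hZ'.mono fun s hs => hs.1
        add_mem' := fun {x y} hx hy => by
          filter_upwards [hZ', hU x, hU y, hU (x + y), hx, hy] with s hs a b c d e
          exact hs.2.2.1 x a y b c d e
        smul_mem' := fun x y hy => by
          filter_upwards [hZ', hU x, hU y, hU (x * y), hy] with s hs a b c d
          exact (hs.2.2.2.1 x a y b c).2 (Or.inr d) }
    have hrp : r ∉ p := fun hh => by
      obtain ⟨s, h1, h2⟩ := (hZ'.and hh).exists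
      exact h1.2.1 h2
    refine ⟨p, ⟨fun ht => hrp (ht ▸ Submodule.mem_top), fun {x y} hxy => ?_⟩, fun x hx => ?_, hrp⟩
    · refine Ultrafilter.eventually_or.1 ?_
      filter_upwards [hZ', hU x, hU y, hU (x * y), hxy] with s hs a b c d
      exact (hs.2.2.2.1 x a y b c).1 d
    · rw [Ideal.mem_jacobson_bot]
      intro y
      obtain ⟨s, hs, a, b, c⟩ := (hZ'.and ((hU (x * y)).and ((hU (x * y + 1)).and
        (p.mul_mem_right y hx)))).exists
      exact hs.2.2.2.2 _ a b c
  · intro h e he v hv
    have key : ∀ p : Ideal R, p.IsPrime → p ≤ (⊥ : Ideal R).jacobson →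
        (e.concl.1.eval v).map (Ideal.Quotient.mk p) =
          (e.concl.2.eval v).map (Ideal.Quotient.mk p) := by
      intro p hp hle
      have hloc : ∀ r : R, IsUnit (Ideal.Quotient.mk p r) → IsUnit r := by
        intro r hu
        obtain ⟨y, hy⟩ := hu.exists_right_inv
        obtain ⟨y, rfl⟩ := Ideal.Quotient.mk_surjective y
        rw [← map_mul, ← map_one (Ideal.Quotient.mk p), Ideal.Quotient.eq] at hy
        have := Ideal.mem_jacobson_bot.1 (hle hy) 1
        rw [mul_one, sub_add_cancel] at this
        exact isUnit_of_mul_isUnit_left this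
      rw [eval_map _ hloc, eval_map _ hloc]
      apply he (R ⧸ p)
      intro q hq
      rw [← eval_map _ hloc, ← eval_map _ hloc, hv q hq]
    obtain ⟨p₁, hp₁, hle₁, -⟩ := h 1 one_ne_zero
    have k1 := key p₁ hp₁ hle₁
    cases ha : e.concl.1.eval v with
    | none =>
      cases hb : e.concl.2.eval v with
      | none => rfl
      | some y => rw [ha, hb] at k1; simp at k1
    | some x =>
      cases hb : e.concl.2.eval v with
      | none => rw [ha, hb] at k1; simp at k1
      | some y =>
        by_contra hne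
        obtain ⟨p, hp, hle, hr⟩ := h (x - y) fun h0 => hne (by rw [sub_eq_zero.1 h0])
        have k2 := key p hp hle
        rw [ha, hb, Option.map_some, Option.map_some, Option.some.injEq, Ideal.Quotient.eq] at k2
        exact hr k2

end Pool.Agent.Results.MP_faa006_lc.Hull
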